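import Pool.Agent.helper93.TV.Spec2

/-!
TV, row BZ: elementary Bezout inequality for nondegenerate real zeros.
-/

set_option autoImplicit false

namespace Pool.Agent.helper93.TV

open Finset

private theorem BZ_sep {ι : Type} (x y : ι → ℝ) (h : x ≠ y) :
    ∃ p : MvPolynomial ι ℝ, MvPolynomial.eval x p = 1 ∧ MvPolynomial.eval y p = 0 := by
  obtain ⟨i, hi⟩ := Function.ne_iff.1 h
  refine ⟨MvPolynomial.C ((x i - y i)⁻¹) * (MvPolynomial.X i - MvPolynomial.C (y i)), ?_, ?_⟩
  · simp only [map_mul, map_sub, MvPolynomial.eval_C, MvPolynomial.eval_X]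
    exact inv_mul_cancel₀ (sub_ne_zero.2 hi)
  · simp

private theorem BZ_interp {ι : Type} [Fintype ι] [DecidableEq ι] (S : Finset (ι → ℝ)) :
    ∃ e : S → MvPolynomial ι ℝ,
      ∀ x y : S, MvPolynomial.eval (y : ι → ℝ) (e x) = if x = y then 1 else 0 := by
  classical
  choose L hL1 hL0 using fun (x y : ι → ℝ) (h : x ≠ y) => BZ_sep x y h
  refine ⟨fun x => ∏ y : S, if h : (x : ι → ℝ) ≠ y then L x y h else 1, ?_⟩
  intro x y
  rw [map_prod]
  by_cases hxy : x = y
  · rw [if_pos hxy]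
    refine prod_eq_one fun z _ => ?_
    by_cases hz : (x : ι → ℝ) ≠ z
    · rw [dif_pos hz, ← hxy, hL1]
    · rw [dif_neg hz, map_one]
  · rw [if_neg hxy]
    have hne : (x : ι → ℝ) ≠ y := fun h => hxy (Subtype.ext h)
    refine prod_eq_zero (mem_univ y) ?_
    rw [dif_pos hne, hL0]

private theorem BZ_count {ι : Type} [Fintype ι] [DecidableEq ι] {κ : Type} [Fintype κ] (D : ℕ)
    (v : κ → MvPolynomial ι ℝ) (hv : LinearIndependent ℝ v) (hd : ∀ z, (v z).totalDegree ≤ D) :
    Fintype.card κ ≤ (D + 1) ^ Fintype.card ι := by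
  let m : (ι → Fin (D + 1)) → (ι →₀ ℕ) := fun a =>
    Finsupp.equivFunOnFinite.symm (fun i => (a i : ℕ))
  let φ : MvPolynomial ι ℝ →ₗ[ℝ] ((ι → Fin (D + 1)) → ℝ) :=
    LinearMap.pi fun a => MvPolynomial.lcoeff ℝ (m a)
  have hφ : ∀ p a, φ p a = MvPolynomial.coeff (m a) p := fun p a => rfl
  have hspan : Submodule.span ℝ (Set.range v) ≤ MvPolynomial.restrictTotalDegree ι ℝ D := by
    rw [Submodule.span_le]
    rintro _ ⟨z, rfl⟩
    exact (MvPolynomial.mem_restrictTotalDegree _ _ _).2 (hd z)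
  have hdis : Disjoint (Submodule.span ℝ (Set.range v)) (LinearMap.ker φ) := by
    rw [Submodule.disjoint_def]
    intro p hp hk
    have hp' : p.totalDegree ≤ D := (MvPolynomial.mem_restrictTotalDegree _ _ _).1 (hspan hp)
    have hk' : φ p = 0 := hk
    ext b
    rw [MvPolynomial.coeff_zero]
    by_contra hb
    have hbm : b ∈ p.support := MvPolynomial.mem_support_iff.2 hb
    have hdeg : ∀ i, b i ≤ D := by
      intro i
      have h1 := MvPolynomial.le_totalDegree hbm
      have h2 : b i ≤ b.sum fun _ e => e := by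
        rw [Finsupp.sum_fintype _ _ (fun _ => rfl)]
        exact single_le_sum (fun j _ => Nat.zero_le _) (mem_univ i)
      omega
    have hb2 : m (fun i => ⟨b i, Nat.lt_succ_of_le (hdeg i)⟩) = b := by
      ext i
      rfl
    apply hb
    have h3 := congrFun hk' (fun i => ⟨b i, Nat.lt_succ_of_le (hdeg i)⟩)
    rw [hφ, hb2] at h3
    exact h3
  have h1 := (hv.map hdis).fintype_card_le_finrank
  rw [Module.finrank_fintype_fun_eq_card] at h1
  simpa using h1

theorem BZ : BZ_stmt := by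
  intro hLI ι _ _ g δ S hg hS hdet
  obtain ⟨e, he⟩ := BZ_interp S
  obtain ⟨K, hK⟩ : ∃ K, K = Fintype.card ι := ⟨_, rfl⟩
  obtain ⟨q, hq⟩ : ∃ q, ∀ x, (e x).totalDegree ≤ q :=
    ⟨Finset.univ.sup fun x => (e x).totalDegree, fun x =>
      Finset.le_sup (f := fun x => (e x).totalDegree) (mem_univ x)⟩
  have hcount : ∀ s : ℕ, S.card * s ^ K ≤ (q + K * (s * δ) + 1) ^ K := by
    intro s
    have hli := hLI ι g S e s hS hdet he
    have hd : ∀ z : S × (ι → Fin s), (e z.1 * ∏ i, g i ^ (z.2 i : ℕ)).totalDegree ≤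
        q + K * (s * δ) := by
      intro z
      refine (MvPolynomial.totalDegree_mul _ _).trans (add_le_add (hq _) ?_)
      refine (MvPolynomial.totalDegree_finsetProd _ _).trans ?_
      have h1 : ∀ i ∈ (univ : Finset ι), (g i ^ (z.2 i : ℕ)).totalDegree ≤ s * δ := by
        intro i _
        refine (MvPolynomial.totalDegree_pow _ _).trans ?_
        exact Nat.mul_le_mul (z.2 i).2.le (hg i)
      refine (sum_le_sum h1).trans ?_
      rw [sum_const, smul_eq_mul, card_univ, hK]
    have h2 := BZ_count (q + K * (s * δ)) _ hli hd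
    rw [← hK] at h2
    simpa [Fintype.card_prod, ← hK] using h2
  rw [← hK]
  have hlim : Filter.Tendsto (fun s : ℕ => (((q : ℝ) + 1) / s + K * δ) ^ K) Filter.atTop
      (nhds ((0 + (K : ℝ) * δ) ^ K)) :=
    ((tendsto_const_div_atTop_nhds_zero_nat ((q : ℝ) + 1)).add tendsto_const_nhds).pow K
  have hle : ((S.card : ℕ) : ℝ) ≤ (0 + (K : ℝ) * δ) ^ K := by
    refine ge_of_tendsto hlim ?_
    filter_upwards [Filter.eventually_ge_atTop 1] with s hs
    have hs0 : (0 : ℝ) < s := by exact_mod_cast hs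
    have h1 : ((S.card : ℕ) : ℝ) * (s : ℝ) ^ K ≤ ((q : ℝ) + K * (s * δ) + 1) ^ K := by
      exact_mod_cast hcount s
    have h2 : (((q : ℝ) + 1) / s + K * δ) ^ K * (s : ℝ) ^ K = ((q : ℝ) + K * (s * δ) + 1) ^ K := by
      rw [← mul_pow]
      congr 1
      field_simp
      ring
    rw [← h2] at h1
    exact le_of_mul_le_mul_right h1 (by positivity)
  rw [zero_add] at hle
  have h3 : S.card ≤ (K * δ) ^ K := by exact_mod_cast hle
  rwa [mul_comm] at h3

end Pool.Agent.helper93.TV
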