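import Pool.Agent.helper93.TV.Spec1

/-!
TV, row CB.
-/

set_option autoImplicit false

namespace Pool.Agent.helper93.TV

open BigOperators Finset Matrix

private theorem CB_aux {V : Type} [Fintype V] (A : V → V → ℂ) (G : V → V → V → V → ℂ)
    (K : V → V → ℂ) :
    ∑ α, ∑ γ, A α γ * ∑ μ, ∑ ρ, G α γ μ ρ * K μ ρ =
      ∑ μ, ∑ ρ, (∑ α, ∑ γ, A α γ * G α γ μ ρ) * K μ ρ := by
  have h1 : ∑ α, ∑ γ, A α γ * ∑ μ, ∑ ρ, G α γ μ ρ * K μ ρ =
      ∑ x : V × V, ∑ y : V × V, A x.1 x.2 * (G x.1 x.2 y.1 y.2 * K y.1 y.2) := by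
    rw [Fintype.sum_prod_type]
    refine sum_congr rfl fun α _ => sum_congr rfl fun γ _ => ?_
    rw [Fintype.sum_prod_type, mul_sum]
    exact sum_congr rfl fun μ _ => by rw [mul_sum]
  have h2 : ∑ μ, ∑ ρ, (∑ α, ∑ γ, A α γ * G α γ μ ρ) * K μ ρ =
      ∑ y : V × V, ∑ x : V × V, A x.1 x.2 * (G x.1 x.2 y.1 y.2 * K y.1 y.2) := by
    rw [Fintype.sum_prod_type]
    refine sum_congr rfl fun μ _ => sum_congr rfl fun ρ _ => ?_
    rw [Fintype.sum_prod_type, sum_mul]
    refine sum_congr rfl fun α _ => ?_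
    rw [sum_mul]
    exact sum_congr rfl fun γ _ => by ring
  rw [h1, h2, sum_comm]

theorem CB : CB_stmt := by
  intro I V _ _ _ _ D F hF η β
  have hc := hF.uf.conn
  obtain ⟨a, ha⟩ : ∃ a, a = D.du (D.s2 η) := ⟨_, rfl⟩
  obtain ⟨b, hb⟩ : ∃ b, b = D.du (D.s1 η) := ⟨_, rfl⟩
  have hda : D.du a = D.s2 η := by rw [ha, D.du_du]
  have hdb : D.du b = D.s1 η := by rw [hb, D.du_du]
  have hpent : ∀ α γ, ∑ ν, F γ (D.eta a) η ν * F α ν β (D.eta a) =
      ∑ μ, ∑ ρ, F α γ μ ρ * ∑ σ, F ρ (D.eta a) σ (D.eta a) * F μ σ η β := by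
    intro α γ
    rw [hF.uf.pent]
    refine sum_congr rfl fun μ _ => sum_congr rfl fun ρ _ => ?_
    rw [mul_sum]
    exact sum_congr rfl fun σ _ => by ring
  have hR : ∑ α, ∑ γ, star (F α γ (D.eta b) (D.rho a)) *
      (∑ ν, F γ (D.eta a) η ν * F α ν β (D.eta a)) = D.Cm F η β := by
    have h1 : ∑ α, ∑ γ, star (F α γ (D.eta b) (D.rho a)) *
        (∑ ν, F γ (D.eta a) η ν * F α ν β (D.eta a)) =
        ∑ α, ∑ γ, star (F α γ (D.eta b) (D.rho a)) *
          ∑ μ, ∑ ρ, F α γ μ ρ * ∑ σ, F ρ (D.eta a) σ (D.eta a) * F μ σ η β :=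
      sum_congr rfl fun α _ => sum_congr rfl fun γ _ => by rw [hpent]
    rw [h1, CB_aux]
    have h2 : ∀ μ ρ, ∑ α, ∑ γ, star (F α γ (D.eta b) (D.rho a)) * F α γ μ ρ =
        if D.eta b = μ ∧ D.rho a = ρ then 1 else 0 := fun μ ρ =>
      hc.col (D.eta b) (D.rho a) μ ρ (by rw [D.t_eta, D.s2_rho]) (mem_univ _) (mem_univ _)
    simp only [h2]
    rw [Finset.sum_eq_single (D.eta b)]
    · rw [Finset.sum_eq_single (D.rho a)]
      · rw [if_pos ⟨rfl, rfl⟩, one_mul, Finset.sum_eq_single (D.lam (D.s2 η))]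
        · have h3 := hF.tri (D.eta a) (D.eta a)
          rw [D.s1_eta, D.s2_eta, if_pos rfl, hda] at h3
          rw [h3, one_mul, hb]
          rfl
        · intro σ _ hσ
          by_contra hne
          have h4 := (hc.supp _ _ _ _ (left_ne_zero_of_mul hne)).1
          obtain ⟨_, _, _, h5, h6, _⟩ := h4
          rw [D.s2_rho] at h5
          rw [D.s2_eta, hda] at h6
          apply hσ
          rw [D.lam_unique σ h5.symm, ← h6]
        · intro h
          exact absurd (mem_univ _) h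
      · intro ρ _ hρ
        rw [if_neg fun h => hρ h.2.symm, zero_mul]
      · intro h
        exact absurd (mem_univ _) h
    · intro μ _ hμ
      refine sum_eq_zero fun ρ _ => ?_
      rw [if_neg fun h => hμ h.1.symm, zero_mul]
    · intro h
      exact absurd (mem_univ _) h
  rw [← hR]
  refine sum_congr rfl fun α _ => sum_congr rfl fun γ _ => ?_
  by_cases hh : D.s1 α = a ∧ D.s2 α = b ∧ D.t γ = a ∧ D.t α = D.s1 γ
  · obtain ⟨h1, h2, h3, h4⟩ := hh
    have hB : D.Bm F α γ = F α γ (D.eta b) (D.rho a) := by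
      unfold FD.Bm
      rw [h1, h2]
    have hS : ∑ ν, F γ (D.eta a) η ν * F α ν β (D.eta a) = D.Rm F γ η * D.Rm F α β := by
      rw [Finset.sum_eq_single (D.eta (D.t α))]
      · unfold FD.Rm
        rw [h3, h4, h1]
      · intro ν _ hν
        by_contra hne
        obtain ⟨_, _, h7, _, _, h8⟩ := (hc.supp _ _ _ _ (left_ne_zero_of_mul hne)).1
        rw [D.t_eta] at h8
        apply hν
        rw [D.eta_unique ν h8.symm, ← h7, h4]
      · intro h
        exact absurd (mem_univ _) h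
    rw [hS, hB, mul_assoc]
  · have hL : star (F α γ (D.eta b) (D.rho a)) * ∑ ν, F γ (D.eta a) η ν * F α ν β (D.eta a) = 0 := by
      by_contra hne
      have h0 : F α γ (D.eta b) (D.rho a) ≠ 0 := fun h => by
        apply left_ne_zero_of_mul hne
        rw [h, star_zero]
      obtain ⟨h1, _, h3, h4, _, h6⟩ := (hc.supp _ _ _ _ h0).1
      rw [D.s1_rho] at h3
      rw [D.s1_eta] at h4
      rw [D.t_rho] at h6
      exact hh ⟨h3, h4, h6, h1⟩
    have hR' : star (D.Bm F α γ) * D.Rm F γ η * D.Rm F α β = 0 := by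
      by_contra hne
      have hne1 := left_ne_zero_of_mul hne
      have h0 : D.Bm F α γ ≠ 0 := fun h => by
        apply left_ne_zero_of_mul hne1
        rw [h, star_zero]
      have h0' : D.Rm F γ η ≠ 0 := right_ne_zero_of_mul hne1
      obtain ⟨h1, _, _, _, h5, h6⟩ := (hc.supp _ _ _ _ h0).1
      obtain ⟨_, _, _, k4, k5, _⟩ := (hc.supp _ _ _ _ h0').1
      rw [D.t_rho] at h6
      rw [D.s2_eta] at h5 k5
      have e2 : D.s2 α = b := by
        rw [hb, ← k4, h5, D.du_du]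
      have e1 : D.s1 α = a := by
        rw [ha, ← k5, D.du_du, h6]
      exact hh ⟨e1, e2, by rw [h6, e1], h1⟩
    rw [hL, hR']

end Pool.Agent.helper93.TV
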